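import Mathlib
import Pool.Agent.H.MP_106964_gt.T
set_option autoImplicit false
namespace Pool.Agent.H.MP_5c6b81_gt
open Set Filter Topology Cardinal AlgebraicTopology CategoryTheory
open scoped ContDiff RealInnerProductSpace

variable {V : Type} [NormedAddCommGroup V] [InnerProductSpace ℝ V]

def tang (A : Set V) (b : V) : Set V :=
  {v | ∃ c : ℝ → V, c 0 = b ∧ (∀ᶠ s in 𝓝 0, c s ∈ A) ∧ HasDerivAt c v 0}

def IsGeo (N : Set V) (γ : ℝ → V) : Prop :=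
  ContDiff ℝ ∞ γ ∧ ∀ t ∈ Icc (0 : ℝ) 1, γ t ∈ N ∧ ∀ v ∈ tang N (γ t), ⟪deriv (deriv γ) t, v⟫ = 0

def NormalGeo (N M : Set V) (γ : ℝ → V) : Prop :=
  IsGeo N γ ∧ γ 0 ∈ M ∧ ∀ v ∈ tang M (γ 0), ⟪deriv γ 0, v⟫ = 0

def Focal (N M : Set V) (p : V) : Prop :=
  ∃ (Γ : ℝ → ℝ → V) (w : V × V), (∀ s, NormalGeo N M (Γ s)) ∧ Γ 0 1 = p ∧ w ≠ 0 ∧
    HasDerivAt (fun s => (Γ s 0, deriv (Γ s) 0)) w 0 ∧ HasDerivAt (fun s => Γ s 1) 0 0

noncomputable def energy (γ : ℝ → V) : ℝ := ∫ t in (0 : ℝ)..1, ‖deriv γ t‖ ^ 2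

def IdxGe (N M : Set V) (p : V) (γ : ℝ → V) (k : ℕ) : Prop :=
  ∃ Γ : (Fin k → ℝ) → ℝ → V, ContDiff ℝ ∞ (fun q : (Fin k → ℝ) × ℝ => Γ q.1 q.2) ∧
    EqOn (Γ 0) γ (Icc 0 1) ∧ (∀ s, ∀ t ∈ Icc (0 : ℝ) 1, Γ s t ∈ N) ∧
    (∀ s, Γ s 0 ∈ M ∧ Γ s 1 = p) ∧
    ∀ u ≠ 0, deriv (deriv fun r : ℝ => energy (Γ (r • u))) 0 < 0

def Crit (N M : Set V) (p : V) (k : ℕ) : Set (Icc (0 : ℝ) 1 → V) :=
  (fun (γ : ℝ → V) (t : Icc (0 : ℝ) 1) => γ t) ''
    {γ | NormalGeo N M γ ∧ γ 1 = p ∧ IdxGe N M p γ k ∧ ¬ IdxGe N M p γ (k + 1)}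

def PathSp (N M : Set V) (p : V) : Set C(unitInterval, V) :=
  {c | (∀ t, c t ∈ N) ∧ c 0 ∈ M ∧ c 1 = p}

noncomputable def betti (k : ℕ) (X : Type) [TopologicalSpace X] : Cardinal :=
  Module.rank (ZMod 2) (((singularHomologyFunctor (ModuleCat (ZMod 2)) k).obj
    (ModuleCat.of (ZMod 2) (ZMod 2))).obj (TopCat.of X))

def Taut (N M : Set V) : Prop :=
  ∀ p ∈ N, ¬ Focal N M p → ∀ k, Cardinal.mk (Crit N M p k) = betti k (PathSp N M p)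

lemma betti_eq (k : ℕ) (X : Type) [TopologicalSpace X] :
    betti k X = MP_106964_gt.betti (ZMod 2) k X := rfl

lemma deriv_eqOn {γ δ : ℝ → V} (h1 : Differentiable ℝ γ) (h2 : Differentiable ℝ δ)
    (h : EqOn γ δ (Icc 0 1)) : EqOn (deriv γ) (deriv δ) (Icc 0 1) := fun t ht =>
  (uniqueDiffOn_Icc zero_lt_one t ht).eq_deriv _ (h1 t).hasDerivAt.hasDerivWithinAt
    ((h2 t).hasDerivAt.hasDerivWithinAt.congr h (h ht))

lemma energy_congr {γ δ : ℝ → V} (h1 : ContDiff ℝ ∞ γ) (h2 : ContDiff ℝ ∞ δ)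
    (h : EqOn γ δ (Icc 0 1)) : energy γ = energy δ :=
  intervalIntegral.integral_congr fun t ht => by
    rw [uIcc_of_le zero_le_one] at ht
    simp only [deriv_eqOn (h1.differentiable (by simp)) (h2.differentiable (by simp)) h ht]

lemma dz {f f' : ℝ → ℝ} {c : ℝ} (h : ∀ t, HasDerivAt f (f' t) t) (hc : ∀ t ∈ Icc (0 : ℝ) 1, f t = c) :
    ∀ t ∈ Icc (0 : ℝ) 1, f' t = 0 := fun t ht =>
  (uniqueDiffOn_Icc zero_lt_one t ht).eq_deriv _ (h t).hasDerivWithinAt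
    ((hasDerivWithinAt_const t _ c).congr hc (hc t ht))

lemma cst {f f' : ℝ → ℝ} (h : ∀ t, HasDerivAt f (f' t) t) (hc : ∀ t ∈ Icc (0 : ℝ) 1, f' t = 0) :
    ∀ t ∈ Icc (0 : ℝ) 1, f t = f 0 :=
  constant_of_has_deriv_right_zero (fun t _ => (h t).continuousAt.continuousWithinAt)
    fun t ht => hc t (Ico_subset_Icc_self ht) ▸ (h t).hasDerivWithinAt

lemma idx_zero {N M : Set V} {p : V} {γ : ℝ → V} (hγ : ContDiff ℝ ∞ γ)
    (h : ∀ Γ : ℝ → ℝ → V, ContDiff ℝ ∞ (fun q : ℝ × ℝ => Γ q.1 q.2) → EqOn (Γ 0) γ (Icc 0 1) →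
      (∀ s, ∀ t ∈ Icc (0 : ℝ) 1, Γ s t ∈ N) → (∀ s, Γ s 0 ∈ M ∧ Γ s 1 = p) →
      ∀ᶠ r in 𝓝 0, energy γ ≤ energy (Γ r)) (k : ℕ) : ¬ IdxGe N M p γ (k + 1) := by
  rintro ⟨Γ, h1, h2, h3, h4, h5⟩
  have hu : (fun _ : Fin (k + 1) => (1 : ℝ)) ≠ 0 := fun e => one_ne_zero (congrFun e 0)
  have hs : ContDiff ℝ ∞ fun q : ℝ × ℝ => Γ (q.1 • fun _ => 1) q.2 :=
    h1.comp (f := fun q : ℝ × ℝ => ((q.1 • fun _ => 1 : Fin (k + 1) → ℝ), q.2)) (by fun_prop)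
  have hmin : IsLocalMin (fun r : ℝ => energy (Γ (r • fun _ => 1))) 0 := by
    have := h (fun r => Γ (r • fun _ => 1)) hs (by simpa using h2) (fun _ => h3 _)
      fun _ => h4 _
    rw [← energy_congr (γ := Γ 0)
      (h1.comp (f := fun t : ℝ => ((0 : Fin (k + 1) → ℝ), t)) (by fun_prop)) hγ h2] at this
    simpa [IsLocalMin, IsMinFilter] using this
  have hc : Continuous fun r : ℝ => energy (Γ (r • fun _ => 1)) :=
    intervalIntegral.continuous_parametric_intervalIntegral_of_continuous'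
      ((MP_106964_gt.par_deriv (Γ := fun r => Γ (r • fun _ => 1)) hs).norm.pow 2) 0 1
  have hmax := isLocalMax_of_deriv_deriv_neg (h5 _ hu) hmin.deriv_eq_zero hc.continuousAt
  have hconst : (fun r : ℝ => energy (Γ (r • fun _ => 1))) =ᶠ[𝓝 0]
      fun _ => energy (Γ ((0 : ℝ) • fun _ => 1)) :=
    (hmin.and hmax).mono fun r hr => le_antisymm hr.2 hr.1
  have := h5 _ hu
  rw [hconst.deriv.deriv_eq] at this
  simp at this

lemma idx_ge0 {N M : Set V} {p : V} {γ : ℝ → V} (h : NormalGeo N M γ) (hp : γ 1 = p) :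
    IdxGe N M p γ 0 :=
  ⟨fun _ => γ, h.1.1.comp contDiff_snd, fun _ _ => rfl, fun _ t ht => (h.1.2 t ht).1,
    fun _ => ⟨h.2.1, hp⟩, fun _ hu => absurd (Subsingleton.elim _ _) hu⟩

abbrev W := EuclideanSpace ℝ (Fin 4)

lemma hd {γ : ℝ → W} {v : W} {t : ℝ} (h : HasDerivAt γ v t) (j : Fin 4) :
    HasDerivAt (fun t => γ t j) (v j) t :=
  (EuclideanSpace.proj j : W →L[ℝ] ℝ).hasFDerivAt.comp_hasDerivAt t h

lemma hd' {γ : ℝ → W} {v : W} {t : ℝ} (h : ∀ j, HasDerivAt (fun t => γ t j) (v j) t) :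
    HasDerivAt γ v t :=
  (PiLp.continuousLinearEquiv 2 ℝ (fun _ : Fin 4 => ℝ)).symm.toContinuousLinearMap.hasFDerivAt.comp_hasDerivAt
    t (hasDerivAt_pi.2 h)

lemma inn (x y : W) : ⟪x, y⟫ = x 0 * y 0 + x 1 * y 1 + x 2 * y 2 + x 3 * y 3 := by
  simp [PiLp.inner_apply, Fin.sum_univ_four, mul_comm]

lemma nrm (x : W) : ‖x‖ ^ 2 = x 0 ^ 2 + x 1 ^ 2 + x 2 ^ 2 + x 3 ^ 2 := by
  rw [← real_inner_self_eq_norm_sq, inn]; ring

lemma sm1 {γ : ℝ → W} (h : ContDiff ℝ ∞ γ) (t : ℝ) (j : Fin 4) :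
    HasDerivAt (fun t => γ t j) (deriv γ t j) t :=
  hd (h.differentiable (by simp) t).hasDerivAt j

lemma sm2 {γ : ℝ → W} (h : ContDiff ℝ ∞ γ) (t : ℝ) (j : Fin 4) :
    HasDerivAt (fun t => deriv γ t j) (deriv (deriv γ) t j) t :=
  sm1 (contDiff_infty_iff_deriv.1 h).2 t j

noncomputable def F (x : W) : ℝ := x 0 ^ 2 + x 1 ^ 2 + Real.exp 1 * expNegInvGlue (x 2)
def N : Set W := {x | F x = 1}
def M : Set W := {x | F x = 1 ∧ x 3 = 0}

noncomputable def ph (z : ℝ) : ℝ := Real.exp 1 * expNegInvGlue z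

lemma ph_sm : ContDiff ℝ ∞ ph := contDiff_const.mul expNegInvGlue.contDiff

lemma ph1 (z : ℝ) : HasDerivAt ph (deriv ph z) z := (ph_sm.differentiable (by simp) z).hasDerivAt

lemma ph_sm' : ContDiff ℝ ∞ (deriv ph) := (contDiff_infty_iff_deriv.1 ph_sm).2

lemma ph2 (z : ℝ) : HasDerivAt (deriv ph) (deriv (deriv ph) z) z :=
  (ph_sm'.differentiable (by simp) z).hasDerivAt

lemma ph_neg {z : ℝ} (h : z ≤ 0) : ph z = 0 := by simp [ph, expNegInvGlue.zero_of_nonpos h]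

lemma ph_pos {z : ℝ} (h : 0 < z) : ph z = Real.exp (1 - z⁻¹) := by
  simp [ph, expNegInvGlue, h.not_ge, sub_eq_add_neg, Real.exp_add]

lemma dph_pos {z : ℝ} (h : 0 < z) : 0 < deriv ph z := by
  have e : ph =ᶠ[𝓝 z] fun z => Real.exp (1 - z⁻¹) :=
    (eventually_gt_nhds h).mono fun _ hz => ph_pos hz
  rw [e.deriv_eq, (((hasDerivAt_inv h.ne').const_sub 1).exp).deriv]
  simp only [neg_neg]; positivity

lemma dph_neg {z : ℝ} (h : z < 0) : deriv ph z = 0 := by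
  have e : ph =ᶠ[𝓝 z] fun _ => 0 := (eventually_lt_nhds h).mono fun _ hz => ph_neg hz.le
  simp [e.deriv_eq]

lemma F_sm : ContDiff ℝ ∞ F := by
  have := ph_sm
  change ContDiff ℝ ∞ fun x : W => x 0 ^ 2 + x 1 ^ 2 + ph (x 2)
  fun_prop

lemma F_deriv {c : ℝ → W} {v : W} {t : ℝ} (h : HasDerivAt c v t) : HasDerivAt (fun s => F (c s))
    (2 * c t 0 * v 0 + 2 * c t 1 * v 1 + deriv ph (c t 2) * v 2) t :=
  ((((hd h 0).pow 2).add ((hd h 1).pow 2)).add ((ph1 _).comp t (hd h 2))).congr_deriv (by simp)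

lemma F_fderiv (x v : W) : fderiv ℝ F x v = 2 * x 0 * v 0 + 2 * x 1 * v 1 + deriv ph (x 2) * v 2 := by
  have h : HasDerivAt (fun s : ℝ => x + s • v) v 0 := by
    simpa using ((hasDerivAt_id (0 : ℝ)).smul_const v).const_add x
  have h2 := (F_sm.differentiable (by simp) (x + (0 : ℝ) • v)).hasFDerivAt.comp_hasDerivAt 0 h
  simpa using h2.unique (F_deriv h)

lemma den_pos {x : W} (h : F x = 1) : 0 < 4 * x 0 ^ 2 + 4 * x 1 ^ 2 + deriv ph (x 2) ^ 2 := by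
  rcases le_or_gt (x 2) 0 with h1 | h1
  · have : x 0 ^ 2 + x 1 ^ 2 + ph (x 2) = 1 := h
    rw [ph_neg h1] at this
    nlinarith [sq_nonneg (deriv ph (x 2))]
  · have := dph_pos h1
    positivity

lemma F_reg {x : W} (h : F x = 1) : fderiv ℝ F x ≠ 0 := fun e => by
  have := F_fderiv x !₂[2 * x 0, 2 * x 1, deriv ph (x 2), 0]
  rw [e] at this
  simp at this
  nlinarith [den_pos h]

lemma tang_N {x v : W} (hx : F x = 1) :
    v ∈ tang N x ↔ 2 * x 0 * v 0 + 2 * x 1 * v 1 + deriv ph (x 2) * v 2 = 0 := by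
  constructor
  · rintro ⟨c, rfl, h1, h2⟩
    exact MP_106964_gt.zero_of_ev (F_deriv h2) h1
  · intro hv
    have hs : HasStrictFDerivAt F (fderiv ℝ F x) x := F_sm.contDiffAt.hasStrictFDerivAt (by simp)
    have hr : (fderiv ℝ F x).range = ⊤ :=
      (eq_bot_or_eq_top _).resolve_left fun e => F_reg hx (ContinuousLinearMap.coe_injective
        (LinearMap.range_eq_bot.1 e))
    obtain ⟨w, hw⟩ : ∃ w : (fderiv ℝ F x).ker, w.1 = v := ⟨⟨v, (F_fderiv x v).trans hv⟩, rfl⟩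
    have l : HasDerivAt (fun s : ℝ => s • w) w 0 := by simpa using (hasDerivAt_id (0 : ℝ)).smul_const w
    refine ⟨fun s => hs.implicitFunction F _ hr (F x) (s • w), by simp, ?_, ?_⟩
    · have : Tendsto (fun s : ℝ => (F x, s • w)) (𝓝 0) (𝓝 (F x, 0)) :=
        Continuous.tendsto' (by fun_prop) _ _ (by simp)
      exact (this.eventually (hs.map_implicitFunction_eq hr)).mono fun s h => h.trans hx
    · have := (hs.to_implicitFunction hr).hasFDerivAt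
      rw [← hw]
      exact this.comp_hasDerivAt_of_eq (0 : ℝ) l (by simp)

lemma tang_M {x v : W} (hx : x ∈ M) : v ∈ tang M x ↔ v ∈ tang N x ∧ v 3 = 0 := by
  constructor
  · rintro ⟨c, h0, h1, h2⟩
    exact ⟨⟨c, h0, h1.mono fun _ h => h.1, h2⟩,
      MP_106964_gt.zero_of_ev (hd h2 3) (h1.mono fun _ h => h.2)⟩
  · rintro ⟨⟨c, rfl, h1, h2⟩, h3⟩
    refine ⟨fun s => !₂[c s 0, c s 1, c s 2, 0], ?_, h1.mono fun _ h => ⟨h, rfl⟩, hd' fun j => ?_⟩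
    · ext j; fin_cases j <;> simp [hx.2]
    · fin_cases j
      exacts [hd h2 0, hd h2 1, hd h2 2, by simpa [h3] using hasDerivAt_const (0 : ℝ) (0 : ℝ)]

noncomputable def nv (x : W) : W := !₂[2 * x 0, 2 * x 1, deriv ph (x 2), 0]

lemma geo_iff {γ : ℝ → W} : IsGeo N γ ↔ ContDiff ℝ ∞ γ ∧ ∀ t ∈ Icc (0 : ℝ) 1, F (γ t) = 1 ∧
    ∃ l : ℝ, deriv (deriv γ) t = l • nv (γ t) := by
  refine and_congr_right fun _ => forall₂_congr fun t _ => and_congr_right fun h => ?_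
  generalize deriv (deriv γ) t = a
  generalize γ t = x at h
  have d := den_pos h
  constructor
  · intro k
    obtain ⟨l, hl⟩ : ∃ l, l = (2 * x 0 * a 0 + 2 * x 1 * a 1 + deriv ph (x 2) * a 2) /
      (4 * x 0 ^ 2 + 4 * x 1 ^ 2 + deriv ph (x 2) ^ 2) := ⟨_, rfl⟩
    rw [eq_div_iff d.ne'] at hl
    have e : 2 * x 0 * (a - l • nv x) 0 + 2 * x 1 * (a - l • nv x) 1 +
        deriv ph (x 2) * (a - l • nv x) 2 = 0 := by simp [nv]; linarith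
    have := k _ ((tang_N h).2 e)
    refine ⟨l, sub_eq_zero.1 (inner_self_eq_zero (𝕜 := ℝ).1 ?_)⟩
    rw [inner_sub_left, this, inner_smul_left, inn]
    simp [nv] at e ⊢
    right; linarith
  · rintro ⟨l, rfl⟩ v hv
    have := (tang_N h).1 hv
    rw [inner_smul_left, inn]
    simp [nv]
    right; linarith

end Pool.Agent.H.MP_5c6b81_gt
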