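import Mathlib
import Pool.Agent.H.MP_5c6b81_gt.D
set_option autoImplicit false
namespace Pool.Agent.H.MP_5c6b81_gt
open Set Filter Topology Real unitInterval
open scoped ContDiff RealInnerProductSpace

lemma calib {γ : ℝ → W} (h : ContDiff ℝ ∞ γ) {G G' : ℝ → ℝ} (hG : ∀ t, HasDerivAt G (G' t) t)
    (hle : ∀ t ∈ Icc (0 : ℝ) 1, G' t ≤ ‖deriv γ t‖ ^ 2) : G 1 - G 0 ≤ energy γ :=
  intervalIntegral.sub_le_integral_of_hasDeriv_right_of_le zero_le_one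
    (fun t _ => (hG t).continuousAt.continuousWithinAt) (fun t _ => (hG t).hasDerivWithinAt)
    (((h.continuous_deriv (by simp)).norm.pow 2).continuousOn.integrableOn_Icc)
    fun t ht => hle t (Ioo_subset_Icc_self ht)

lemma orthN {γ : ℝ → W} (h : ContDiff ℝ ∞ γ) (hN : ∀ t ∈ Icc (0 : ℝ) 1, F (γ t) = 1) :
    ∀ t ∈ Icc (0 : ℝ) 1, 2 * γ t 0 * deriv γ t 0 + 2 * γ t 1 * deriv γ t 1 +
      deriv ph (γ t 2) * deriv γ t 2 = 0 :=
  dz (fun t => F_deriv (h.differentiable (by simp) t).hasDerivAt) hN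

lemma speed {γ : ℝ → W} (h : IsGeo N γ) : ∀ t ∈ Icc (0 : ℝ) 1, deriv γ t 3 = deriv γ 0 3 ∧
    deriv γ t 0 ^ 2 + deriv γ t 1 ^ 2 + deriv γ t 2 ^ 2 =
      deriv γ 0 0 ^ 2 + deriv γ 0 1 ^ 2 + deriv γ 0 2 ^ 2 := by
  obtain ⟨h1, h2⟩ := geo_iff.1 h
  have o := orthN h1 fun t ht => (h2 t ht).1
  intro t ht
  refine ⟨cst (sm2 h1 · 3) (fun t ht => ?_) t ht, cst (fun t => (((sm2 h1 t 0).pow 2).add
    ((sm2 h1 t 1).pow 2)).add ((sm2 h1 t 2).pow 2)) (fun t ht => ?_) t ht⟩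
  · obtain ⟨l, e⟩ := (h2 t ht).2
    simp [e, nv]
  · obtain ⟨l, e⟩ := (h2 t ht).2
    simp [e, nv]
    linear_combination 2 * l * o t ht

def ln (p : W) (t : ℝ) : W := !₂[p 0, p 1, p 2, t * p 3]

lemma ln_sm (p : W) : ContDiff ℝ ∞ (ln p) := by
  rw [contDiff_euclidean]
  intro j
  fin_cases j <;> simp [ln] <;> fun_prop

lemma ln_deriv (p : W) : deriv (ln p) = fun _ => !₂[0, 0, 0, p 3] := by
  ext1 t
  refine HasDerivAt.deriv (hd' fun j => ?_)
  fin_cases j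
  exacts [hasDerivAt_const _ _, hasDerivAt_const _ _, hasDerivAt_const _ _,
    hasDerivAt_mul_const (p 3)]

lemma ln_one (p : W) : ln p 1 = p := by ext j; fin_cases j <;> simp [ln]

lemma ln_normal {p : W} (hp : p ∈ N) : NormalGeo N M (ln p) := by
  have h0 : ln p 0 ∈ M := ⟨hp, by simp [ln]⟩
  refine ⟨geo_iff.2 ⟨ln_sm p, fun t _ => ⟨hp, 0, by simp [ln_deriv]⟩⟩, h0, fun v hv => ?_⟩
  simp [ln_deriv, inn, ((tang_M h0).1 hv).2]

lemma ln_uniq {p : W} {γ : ℝ → W} (h : NormalGeo N M γ) (h1 : γ 1 = p) :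
    EqOn γ (ln p) (Icc 0 1) := by
  obtain ⟨hg, h0, hn⟩ := h
  have o := orthN hg.1 (fun t ht => (hg.2 t ht).1) 0 (left_mem_Icc.2 zero_le_one)
  have k := hn !₂[deriv γ 0 0, deriv γ 0 1, deriv γ 0 2, 0]
    ((tang_M h0).2 ⟨(tang_N h0.1).2 (by simpa using o), by simp⟩)
  rw [inn] at k
  simp at k
  have s := speed hg
  have z : ∀ t ∈ Icc (0 : ℝ) 1, deriv γ t 0 = 0 ∧ deriv γ t 1 = 0 ∧ deriv γ t 2 = 0 := fun t ht => by
    have := (s t ht).2
    refine ⟨?_, ?_, ?_⟩ <;> nlinarith [sq_nonneg (deriv γ t 0), sq_nonneg (deriv γ t 1),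
      sq_nonneg (deriv γ t 2)]
  have c0 := cst (sm1 hg.1 · 0) fun t ht => (z t ht).1
  have c1 := cst (sm1 hg.1 · 1) fun t ht => (z t ht).2.1
  have c2 := cst (sm1 hg.1 · 2) fun t ht => (z t ht).2.2
  have c3 := cst (fun t => (sm1 hg.1 t 3).sub (hasDerivAt_mul_const (deriv γ 0 3)))
    fun t ht => sub_eq_zero.2 (s t ht).1
  have r := right_mem_Icc.2 (zero_le_one' ℝ)
  intro t ht
  have d3 := c3 t ht
  have e3 := c3 1 r
  simp only [Pi.sub_apply, h0.2, h1] at d3 e3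
  ext j
  fin_cases j
  · exact (c0 t ht).trans ((c0 1 r).symm.trans (congrArg (· 0) h1))
  · exact (c1 t ht).trans ((c1 1 r).symm.trans (congrArg (· 1) h1))
  · exact (c2 t ht).trans ((c2 1 r).symm.trans (congrArg (· 2) h1))
  · change γ t 3 = t * p 3
    linear_combination d3 - t * e3

lemma ln_idx {p : W} {γ : ℝ → W} (h : NormalGeo N M γ) (h1 : γ 1 = p) (k : ℕ) :
    ¬ IdxGe N M p γ (k + 1) := by
  refine idx_zero h.1.1 (fun Γ s1 _ _ s4 => Eventually.of_forall fun r => ?_) k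
  have sm : ContDiff ℝ ∞ (Γ r) := s1.comp (f := fun t : ℝ => (r, t)) (by fun_prop)
  have := calib sm (fun t => ((sm1 sm t 3).const_mul (2 * p 3)).sub (hasDerivAt_mul_const (p 3 ^ 2)))
    fun t _ => by
      rw [nrm]
      nlinarith [sq_nonneg (deriv (Γ r) t 0), sq_nonneg (deriv (Γ r) t 1),
        sq_nonneg (deriv (Γ r) t 2), sq_nonneg (deriv (Γ r) t 3 - p 3)]
  simp only [Pi.sub_apply, (s4 r).1.2, (s4 r).2] at this
  rw [energy_congr h.1.1 (ln_sm p) (ln_uniq h h1), energy, ln_deriv]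
  simp [nrm]
  linarith

lemma cont4 {X : Type} [TopologicalSpace X] {f : X → W} (h : ∀ j, Continuous fun x => f x j) :
    Continuous f := (PiLp.continuous_toLp 2 _).comp (continuous_pi h)

lemma pathsp {p : W} (hp : p ∈ N) : ∃ (j : PathSp N M p),
    Nonempty ((ContinuousMap.id _).Homotopy (ContinuousMap.const _ j)) := by
  have hm : ∀ s t : I, (t : ℝ) + s * (1 - t) ∈ I := fun s t =>
    ⟨by nlinarith [s.2.1, t.2.1, t.2.2], by nlinarith [s.2.2, t.2.1, t.2.2]⟩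
  have cm : Continuous fun q : (I × PathSp N M p) × I => q.1.2.1 ⟨_, hm q.1.1 q.2⟩ :=
    continuous_eval.comp (Continuous.prodMk (by fun_prop) (Continuous.subtype_mk (by fun_prop) _))
  have hH : Continuous fun q : (I × PathSp N M p) × I => (!₂[q.1.2.1 ⟨_, hm q.1.1 q.2⟩ 0,
      q.1.2.1 ⟨_, hm q.1.1 q.2⟩ 1, q.1.2.1 ⟨_, hm q.1.1 q.2⟩ 2,
      (1 - q.1.1) * q.1.2.1 q.2 3 + q.1.1 * (q.2 * p 3)] : W) :=
    cont4 fun j => by fin_cases j <;> simp <;> fun_prop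
  have cl : Continuous fun t : I => ln p t := (ln_sm p).continuous.comp continuous_subtype_val
  refine ⟨⟨⟨_, cl⟩, fun t => hp, ⟨hp, by simp [ln]⟩, ln_one p⟩, ⟨⟨⟨fun q => ⟨(ContinuousMap.mk _ hH).curry q,
    fun t => q.2.2.1 _, ⟨q.2.2.1 _, ?_⟩, ?_⟩, Continuous.subtype_mk (by fun_prop) _⟩, fun c => ?_,
    fun c => ?_⟩⟩⟩
  · simp [q.2.2.2.1.2]
  · have := q.2.2.2.2
    ext i
    change (!₂[_, _, _, _] : W) i = _
    fin_cases i <;> simp [this]
    ring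
  · ext t i
    change (!₂[_, _, _, _] : W) i = c.1 t i
    fin_cases i <;> simp
  · ext t i
    have := c.2.2.2
    change (!₂[_, _, _, _] : W) i = ln p t i
    fin_cases i <;> simp [ln, this]

theorem taut : Taut N M := by
  intro p hp _ k
  obtain ⟨j, ⟨H⟩⟩ := pathsp hp
  cases k with
  | succ k =>
    have : Crit N M p (k + 1) = ∅ := by
      rw [Crit, image_eq_empty, eq_empty_iff_forall_notMem]
      exact fun γ h => ln_idx h.1 h.2.1 k h.2.2.1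
    rw [this, betti_eq, MP_106964_gt.bettiK _ _ (ContinuousMap.const _ 0)
      (ContinuousMap.const _ j) H]
    simp
  | zero =>
    have : Crit N M p 0 = {fun t : Icc (0 : ℝ) 1 => ln p t} := by
      refine eq_singleton_iff_unique_mem.2 ⟨⟨ln p, ⟨ln_normal hp, ln_one p, idx_ge0 (ln_normal hp)
        (ln_one p), ln_idx (ln_normal hp) (ln_one p) 0⟩, rfl⟩, ?_⟩
      rintro _ ⟨γ, h, rfl⟩
      exact funext fun t => ln_uniq h.1 h.2.1 t.2
    rw [this, betti_eq, MP_106964_gt.betti0, Cardinal.mk_singleton, eq_comm, Cardinal.eq_one_iff_unique]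
    refine ⟨⟨?_⟩, ⟨⟦j⟧⟩⟩
    rintro ⟨a⟩ ⟨b⟩
    exact Quotient.sound ⟨(H.evalAt a).trans (H.evalAt b).symm⟩

end Pool.Agent.H.MP_5c6b81_gt
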