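import Mathlib
import Pool.Agent.H.MP_5c6b81_gt.A
set_option autoImplicit false
namespace Pool.Agent.H.MP_5c6b81_gt
open Set Filter Topology Real Metric MeasureTheory
open scoped ContDiff RealInnerProductSpace

def bp : W := !₂[1, 0, -1, 0]

noncomputable def X (q : W × W) : W × W :=
  (q.2, (-(2 * q.2 0 ^ 2 + 2 * q.2 1 ^ 2 + deriv (deriv ph) (q.1 2) * q.2 2 ^ 2) /
    (4 * q.1 0 ^ 2 + 4 * q.1 1 ^ 2 + deriv ph (q.1 2) ^ 2)) • nv q.1)

lemma ode {γ : ℝ → W} (h : IsGeo N γ) : ∀ t ∈ Icc (0 : ℝ) 1,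
    HasDerivAt (fun t => (γ t, deriv γ t)) (X (γ t, deriv γ t)) t := by
  obtain ⟨h1, h2⟩ := geo_iff.1 h
  have o := dz (fun t => (((((sm1 h1 t 0).const_mul 2).mul (sm2 h1 t 0)).add
    (((sm1 h1 t 1).const_mul 2).mul (sm2 h1 t 1))).add
    (((ph2 _).comp t (sm1 h1 t 2)).mul (sm2 h1 t 2)))) (orthN h1 fun t ht => (h2 t ht).1)
  intro t ht
  obtain ⟨a, l, e⟩ := h2 t ht
  have o := o t ht
  refine (h1.differentiable (by simp) t).hasDerivAt.prodMk
    (((contDiff_infty_iff_deriv.1 h1).2.differentiable (by simp) t).hasDerivAt.congr_deriv ?_)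
  rw [e] at o ⊢
  congr 1
  rw [eq_div_iff (den_pos a).ne']
  simp [nv] at o ⊢
  linarith

lemma lip (R : ℝ) : ∃ K, LipschitzOnWith K X ((N ∩ closedBall 0 (R + 2)) ×ˢ closedBall 0 R) := by
  refine LocallyLipschitzOn.exists_lipschitzOnWith_of_compact
    (((isCompact_closedBall _ _).inter_left (isClosed_eq F_sm.continuous continuous_const)).prod
      (isCompact_closedBall _ _)) fun q hq => ?_
  have p1 : ContDiff ℝ 1 (deriv ph) := ph_sm'.of_le (by simp)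
  have p2 : ContDiff ℝ 1 (deriv (deriv ph)) := (contDiff_infty_iff_deriv.1 ph_sm').2.of_le (by simp)
  have p3 : ContDiff ℝ 1 nv := by
    rw [contDiff_euclidean]
    intro j
    fin_cases j <;> simp [nv] <;> fun_prop
  have : ContDiffAt ℝ 1 X q := by
    have := (den_pos hq.1.1).ne'
    unfold X
    fun_prop (disch := assumption)
  obtain ⟨K, t, ht, hK⟩ := this.exists_lipschitzOnWith
  exact ⟨K, t, mem_nhdsWithin_of_mem_nhds ht, hK⟩

lemma bound {γ : ℝ → W} {R : ℝ} (h : IsGeo N γ) (h0 : γ 0 = bp) (hR : ‖deriv γ 0‖ ≤ R) :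
    ∀ t ∈ Icc (0 : ℝ) 1, (γ t, deriv γ t) ∈ (N ∩ closedBall 0 (R + 2)) ×ˢ closedBall 0 R := by
  have s : ∀ t ∈ Icc (0 : ℝ) 1, ‖deriv γ t‖ ≤ R := fun t ht => by
    refine le_trans (le_of_eq ?_) hR
    rw [← pow_left_inj₀ (norm_nonneg _) (norm_nonneg _) two_ne_zero, nrm, nrm, (speed h t ht).1,
      (speed h t ht).2]
  intro t ht
  refine ⟨⟨(h.2 t ht).1, ?_⟩, mem_closedBall_zero_iff.2 (s t ht)⟩
  have := norm_image_sub_le_of_norm_deriv_le_segment' (f := γ) (a := 0) (b := 1)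
    (fun x _ => (h.1.differentiable (by simp) x).hasDerivAt.hasDerivWithinAt)
    (fun x hx => s x (Ico_subset_Icc_self hx)) t ht
  have b2 : ‖γ 0‖ ≤ 2 := by
    rw [h0, ← pow_le_pow_iff_left₀ (norm_nonneg _) zero_le_two two_ne_zero, nrm]
    simp [bp]; norm_num
  have b3 := norm_sub_norm_le (γ t) (γ 0)
  rw [mem_closedBall_zero_iff]
  nlinarith [ht.1, ht.2, (norm_nonneg _).trans hR]

def pr (x : W) (i : Fin 3) : ℝ := x i.succ

lemma tz {γ : ℝ → W} (h : IsGeo N γ) (h0 : γ 0 = bp) : deriv γ 0 0 = 0 := by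
  have := orthN h.1 (fun t ht => (h.2 t ht).1) 0 (left_mem_Icc.2 zero_le_one)
  simpa [h0, bp, dph_neg] using this

lemma expL (R : ℝ) : ∃ (K : NNReal) (f : (Fin 3 → ℝ) → (Fin 3 → ℝ)), LipschitzWith K f ∧
    ∀ γ, IsGeo N γ → γ 0 = bp → ‖deriv γ 0‖ ≤ R → f (pr (deriv γ 0)) = pr (γ 1) := by
  classical
  obtain ⟨K, hK⟩ := lip R
  have key : ∀ γ δ : ℝ → W, IsGeo N γ ∧ γ 0 = bp ∧ ‖deriv γ 0‖ ≤ R →
      IsGeo N δ ∧ δ 0 = bp ∧ ‖deriv δ 0‖ ≤ R → dist (pr (γ 1)) (pr (δ 1)) ≤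
        2 * exp K * dist (pr (deriv γ 0)) (pr (deriv δ 0)) := by
    rintro γ δ ⟨a1, a2, a3⟩ ⟨b1, b2, b3⟩
    have g := dist_le_of_trajectories_ODE_of_mem (v := fun _ => X) (a := 0) (b := 1)
      (fun _ _ => hK) (fun t ht => (ode a1 t ht).continuousAt.continuousWithinAt)
      (fun t ht => (ode a1 t (Ico_subset_Icc_self ht)).hasDerivWithinAt)
      (fun t ht => bound a1 a2 a3 t (Ico_subset_Icc_self ht))
      (fun t ht => (ode b1 t ht).continuousAt.continuousWithinAt)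
      (fun t ht => (ode b1 t (Ico_subset_Icc_self ht)).hasDerivWithinAt)
      (fun t ht => bound b1 b2 b3 t (Ico_subset_Icc_self ht)) le_rfl 1 (right_mem_Icc.2 zero_le_one)
    simp only [Prod.dist_eq, a2, b2, dist_self, sub_zero, mul_one, max_le_iff] at g
    rw [max_eq_right dist_nonneg] at g
    have c1 : dist (pr (γ 1)) (pr (δ 1)) ≤ dist (γ 1) (δ 1) :=
      (dist_pi_le_iff dist_nonneg).2 fun i => PiLp.dist_apply_le _ _ _
    have c2 : dist (deriv γ 0) (deriv δ 0) ≤ 2 * dist (pr (deriv γ 0)) (pr (deriv δ 0)) := by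
      have d := fun i => pow_le_pow_left₀ dist_nonneg
        (dist_le_pi_dist (pr (deriv γ 0)) (pr (deriv δ 0)) i) 2
      have d0 := d 0
      have d1 := d 1
      have d2 := d 2
      rw [← pow_le_pow_iff_left₀ dist_nonneg (by positivity) two_ne_zero, dist_eq_norm, nrm]
      simp only [pr, Real.dist_eq, sq_abs] at d0 d1 d2
      simp [tz a1 a2, tz b1 b2] at d0 d1 d2 ⊢
      nlinarith [sq_nonneg (dist (pr (deriv γ 0)) (pr (deriv δ 0)))]
    nlinarith [g.1, mul_le_mul_of_nonneg_right c2 (exp_pos K).le]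
  obtain ⟨g, hg, e⟩ := LipschitzOnWith.extend_pi (K := NNReal.mk (2 * exp K) (by positivity))
    (s := {u | ∃ γ : ℝ → W, (IsGeo N γ ∧ γ 0 = bp ∧ ‖deriv γ 0‖ ≤ R) ∧ pr (deriv γ 0) = u})
    (f := fun u => if h : ∃ γ : ℝ → W, (IsGeo N γ ∧ γ 0 = bp ∧ ‖deriv γ 0‖ ≤ R) ∧
      pr (deriv γ 0) = u then pr (h.choose 1) else 0)
    (LipschitzOnWith.of_dist_le_mul fun u hu v hv => by
      rw [mem_ofPred_eq] at hu hv
      rw [dif_pos hu, dif_pos hv]
      have := key _ _ hu.choose_spec.1 hv.choose_spec.1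
      rwa [hu.choose_spec.2, hv.choose_spec.2] at this)
  refine ⟨_, g, hg, fun γ a1 a2 a3 => ?_⟩
  have hu : ∃ δ : ℝ → W, (IsGeo N δ ∧ δ 0 = bp ∧ ‖deriv δ 0‖ ≤ R) ∧
    pr (deriv δ 0) = pr (deriv γ 0) := ⟨γ, ⟨a1, a2, a3⟩, rfl⟩
  rw [← e hu]
  simp only [dif_pos hu]
  have := key _ _ hu.choose_spec.1 ⟨a1, a2, a3⟩
  rw [hu.choose_spec.2, dist_self, mul_zero] at this
  exact dist_le_zero.1 this

lemma sard {K : NNReal} {f : (Fin 3 → ℝ) → (Fin 3 → ℝ)} (h : LipschitzWith K f) :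
    volume (f '' {u | DifferentiableAt ℝ f u → (fderiv ℝ f u).det = 0}) = 0 := by
  refine measure_mono_null (t := f '' {u | ¬ DifferentiableAt ℝ f u} ∪
    f '' {u | DifferentiableAt ℝ f u ∧ (fderiv ℝ f u).det = 0}) ?_ (measure_union_null ?_ ?_)
  · rw [← image_union]
    exact image_mono fun u hu => (em _).symm.imp_right fun h => ⟨h, hu h⟩
  · have := h.hausdorffMeasure_image_le (d := Fintype.card (Fin 3)) (by positivity)
      {u | ¬ DifferentiableAt ℝ f u}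
    rw [hausdorffMeasure_pi_real, ae_iff.1 (h.ae_differentiableAt (μ := volume)), mul_zero] at this
    exact nonpos_iff_eq_zero.1 this
  · exact addHaar_image_eq_zero_of_det_fderivWithin_eq_zero volume
      (fun u hu => hu.1.hasFDerivAt.hasFDerivWithinAt) fun u hu => hu.2

theorem nonfocal : ∃ q : W, q 0 ^ 2 + q 1 ^ 2 = 1 ∧ q 2 < 0 ∧ ¬ Focal N {bp} q := by
  choose K f h1 h2 using fun n : ℕ => expL n
  have z := measure_iUnion_null fun n => sard (h1 n)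
  have hU : IsOpen {u : Fin 3 → ℝ | u 0 ^ 2 < 1 ∧ u 1 < 0} :=
    (isOpen_lt (f := fun u : Fin 3 → ℝ => u 0 ^ 2) (by fun_prop) continuous_const).inter
      (isOpen_lt (f := fun u : Fin 3 → ℝ => u 1) (by fun_prop) continuous_const)
  obtain ⟨u, hu, hn⟩ := not_subset.1 fun s => hU.measure_ne_zero volume
    ⟨![0, -1, 0], by simp⟩ (measure_mono_null s z)
  refine ⟨!₂[√(1 - u 0 ^ 2), u 0, u 1, u 2], by simp [sq_sqrt (sub_nonneg.2 hu.1.le)], hu.2, ?_⟩
  rintro ⟨Γ, w, g1, g2, g3, g4, g5⟩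
  have b : ∀ s, Γ s 0 = bp := fun s => (g1 s).2.1
  have w1 : w.1 = 0 := by
    have := (ContinuousLinearMap.fst ℝ W W).hasFDerivAt.comp_hasDerivAt 0 g4
    exact this.unique (by simpa [Function.comp_def, b] using hasDerivAt_const (0 : ℝ) bp)
  have g6 : HasDerivAt (fun s => deriv (Γ s) 0) w.2 0 :=
    (ContinuousLinearMap.snd ℝ W W).hasFDerivAt.comp_hasDerivAt 0 g4
  have w2 : w.2 0 = 0 := MP_106964_gt.zero_of_ev (hd g6 0)
    (Eventually.of_forall fun s => tz (g1 s).1 (b s))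
  have w3 : pr w.2 ≠ 0 := fun e => g3 (Prod.ext w1 (by
    ext j
    refine Fin.cases w2 (fun i => congrFun e i) j))
  obtain ⟨n, hn2⟩ := exists_nat_gt ‖deriv (Γ 0) 0‖
  have ev : ∀ᶠ s in 𝓝 (0 : ℝ), f n (pr (deriv (Γ s) 0)) = pr (Γ s 1) :=
    (g6.continuousAt.norm.eventually_lt_const hn2).mono fun s hs => h2 n _ (g1 s).1 (b s) hs.le
  refine hn (mem_iUnion.2 ⟨n, pr (deriv (Γ 0) 0), fun hdf => ?_, ?_⟩)
  · have a1 : HasDerivAt (fun s => pr (deriv (Γ s) 0)) (pr w.2) 0 :=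
      hasDerivAt_pi.2 fun i => hd g6 i.succ
    have a2 : HasDerivAt (fun s => pr (Γ s 1)) 0 0 := hasDerivAt_pi.2 fun i => hd g5 i.succ
    have a3 := (hdf.hasFDerivAt.comp_hasDerivAt 0 a1).unique (a2.congr_of_eventuallyEq ev)
    exact LinearMap.det_eq_zero_iff_ker_ne_bot.2 ((Submodule.ne_bot_iff _).2 ⟨_, a3, w3⟩)
  · rw [ev.self_of_nhds, g2]
    ext i
    fin_cases i <;> rfl

end Pool.Agent.H.MP_5c6b81_gt
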