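import Mathlib
import Pool.Agent.H.MP_5c6b81_gt.S
set_option autoImplicit false
namespace Pool.Agent.H.MP_5c6b81_gt
open Set Filter Topology Real unitInterval
open scoped ContDiff RealInnerProductSpace

noncomputable def ps (u : ℝ) : ℝ := if u ≤ 0 then 0 else (1 - log u)⁻¹

lemma ps_cont : ContinuousOn ps (Iic 1) := by
  intro u hu
  refine ContinuousAt.continuousWithinAt ?_
  rcases lt_trichotomy u 0 with h | rfl | h
  · exact continuousAt_const.congr ((eventually_lt_nhds h).mono fun x hx => (if_pos hx.le).symm)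
  · refine continuousAt_iff_continuous_left'_right'.2 ⟨?_, ?_⟩
    · exact continuousWithinAt_const.congr (fun x hx => if_pos (le_of_lt hx)) (if_pos le_rfl)
    · have : Tendsto (fun u => (1 - log u)⁻¹) (𝓝[>] 0) (𝓝 0) := tendsto_inv_atTop_zero.comp
        (tendsto_atTop_add_const_left _ 1 (tendsto_neg_atBot_atTop.comp tendsto_log_nhdsGT_zero))
      rw [ContinuousWithinAt, show ps 0 = 0 from if_pos le_rfl]
      exact this.congr' (eventually_mem_nhdsWithin.mono fun x hx => (if_neg (not_le.2 hx)).symm)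
  · have : 1 - log u ≠ 0 := by linarith [log_nonpos h.le hu]
    exact (show ContinuousAt (fun u => (1 - log u)⁻¹) u by fun_prop (disch := positivity)).congr
      ((eventually_gt_nhds h).mono fun x hx => (if_neg hx.not_ge).symm)

noncomputable def kk (w : W) : W := !₂[w 0 / max 1 √(w 0 ^ 2 + w 1 ^ 2),
  w 1 / max 1 √(w 0 ^ 2 + w 1 ^ 2),
  ps (1 - (w 0 ^ 2 + w 1 ^ 2)) + (1 - max 1 √(w 0 ^ 2 + w 1 ^ 2)), w 3]

noncomputable def hh (x : W) : W := !₂[(1 - min (x 2) 0) * x 0, (1 - min (x 2) 0) * x 1, 0, x 3]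

lemma kk_cont : Continuous kk := by
  have a : ∀ w : W, max 1 √(w 0 ^ 2 + w 1 ^ 2) ≠ 0 := fun w => by positivity
  have b : Continuous fun w : W => ps (1 - (w 0 ^ 2 + w 1 ^ 2)) :=
    ps_cont.comp_continuous (by fun_prop) fun w => mem_Iic.2 (sub_le_self (1 : ℝ) (add_nonneg (sq_nonneg _) (sq_nonneg _)))
  refine cont4 fun j => ?_
  fin_cases j <;> simp only [kk] <;> simp <;> fun_prop (disch := assumption)

lemma hh_cont : Continuous hh := cont4 fun j => by fin_cases j <;> simp [hh] <;> fun_prop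

lemma kk_mem (w : W) : kk w ∈ N := by
  change (w 0 / _) ^ 2 + (w 1 / _) ^ 2 + ph (ps _ + _) = 1
  have h0 : 0 ≤ w 0 ^ 2 + w 1 ^ 2 := by positivity
  rcases le_or_gt 1 (w 0 ^ 2 + w 1 ^ 2) with h | h
  · have h1 := one_le_sqrt.2 h
    rw [max_eq_right h1, ps, if_pos (by linarith), ph_neg (by linarith), div_pow, div_pow,
      sq_sqrt h0]
    field_simp; ring
  · have h2 : 0 < 1 - log (1 - (w 0 ^ 2 + w 1 ^ 2)) := by
      linarith [log_nonpos (sub_pos.2 h).le (sub_le_self 1 h0)]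
    rw [max_eq_left (sqrt_le_one.2 h.le), ps, if_neg (by linarith), sub_self, add_zero,
      ph_pos (inv_pos.2 h2), inv_inv, sub_sub_cancel, exp_log (sub_pos.2 h)]
    ring

lemma kk_hh {x : W} (h : x ∈ N) : kk (hh x) = x := by
  have h : x 0 ^ 2 + x 1 ^ 2 + ph (x 2) = 1 := h
  rcases le_or_gt (x 2) 0 with h1 | h1
  · rw [ph_neg h1] at h
    have e : hh x 0 ^ 2 + hh x 1 ^ 2 = (1 - x 2) ^ 2 := by
      simp [hh, h1]; linear_combination (1 - x 2) ^ 2 * h
    have e2 : 1 - x 2 ≠ 0 := by linarith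
    rw [kk, e, sqrt_sq (by linarith), max_eq_right (by linarith), ps, if_pos (by nlinarith)]
    ext j
    fin_cases j <;> simp [hh, h1, e2]
  · rw [ph_pos h1] at h
    have e : hh x 0 ^ 2 + hh x 1 ^ 2 = 1 - exp (1 - (x 2)⁻¹) := by
      simp [hh, h1.le]; linarith
    have e2 := exp_pos (1 - (x 2)⁻¹)
    rw [kk, e, max_eq_left (sqrt_le_one.2 (by linarith)), ps, if_neg (by linarith), sub_sub_cancel,
      log_exp]
    ext j
    fin_cases j <;> simp [hh, h1.le]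

lemma conn {q : W} {c d : C(I, W)} (hc : c ∈ PathSp N {bp} q) (hd : d ∈ PathSp N {bp} q) :
    JoinedIn (PathSp N {bp} q) c d := by
  have := kk_cont
  have := hh_cont
  have c0 : c 0 = bp := hc.2.1
  have d0 : d 0 = bp := hd.2.1
  refine MP_106964_gt.joined_of (fun s => kk ((1 - s.1 : ℝ) • hh (c s.2) + (s.1 : ℝ) • hh (d s.2)))
    (by fun_prop) (fun t => by simp [kk_hh (hc.1 t)]) (fun t => by simp [kk_hh (hd.1 t)])
    fun s e he => ⟨fun t => he t ▸ kk_mem _, ?_, ?_⟩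
  · rw [he, d0, c0, ← add_smul, sub_add_cancel, one_smul]
    exact kk_hh (c0 ▸ hc.1 0)
  · rw [he, hc.2.2, hd.2.2, ← add_smul, sub_add_cancel, one_smul]
    exact kk_hh (hc.2.2 ▸ hc.1 1)

lemma wind {x y d e : ℝ → ℝ} (hx : ∀ t, HasDerivAt x (d t) t) (hy : ∀ t, HasDerivAt y (e t) t)
    (cd : Continuous d) (ce : Continuous e) (h : ∀ t ∈ Icc (0 : ℝ) 1, x t ^ 2 + y t ^ 2 = 1)
    (h1 : x 0 = 1) (h2 : y 0 = 0) :
    cos (∫ t in (0 : ℝ)..1, (x t * e t - y t * d t)) = x 1 ∧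
      sin (∫ t in (0 : ℝ)..1, (x t * e t - y t * d t)) = y 1 := by
  have cx : Continuous x := continuous_iff_continuousAt.2 fun t => (hx t).continuousAt
  have cy : Continuous y := continuous_iff_continuousAt.2 fun t => (hy t).continuousAt
  have o := dz (fun t => ((hx t).pow 2).add ((hy t).pow 2)) h
  have c : Continuous fun t => x t * e t - y t * d t := by fun_prop
  have w := fun t => (c.integral_hasStrictDerivAt 0 t).hasDerivAt
  obtain ⟨om, hom⟩ : ∃ om : ℝ → ℝ, om = fun u => ∫ t in (0 : ℝ)..u, (x t * e t - y t * d t) :=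
    ⟨_, rfl⟩
  rw [← hom] at w
  have w0 : om 0 = 0 := by simp [hom]
  have r := right_mem_Icc.2 (zero_le_one' ℝ)
  have a := cst (fun t => ((w t).cos.mul (hx t)).add ((w t).sin.mul (hy t))) (fun t ht => by
    have := o t ht
    simp at this
    linear_combination (cos (om t) * x t + sin (om t) * y t) / 2 * this -
        (cos (om t) * d t + sin (om t) * e t) * h t ht) 1 r
  have b := cst (fun t => ((w t).cos.mul (hy t)).sub ((w t).sin.mul (hx t))) (fun t ht => by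
    have := o t ht
    simp at this
    linear_combination (cos (om t) * y t - sin (om t) * x t) / 2 * this -
        (cos (om t) * e t - sin (om t) * d t) * h t ht) 1 r
  simp [w0, h1, h2] at a b
  change cos ((fun u => ∫ t in (0 : ℝ)..u, (x t * e t - y t * d t)) 1) = x 1 ∧
    sin ((fun u => ∫ t in (0 : ℝ)..u, (x t * e t - y t * d t)) 1) = y 1
  rw [← hom]
  have k := h 1 r
  exact ⟨by linear_combination x 1 * a + y 1 * b - cos (om 1) * k,
    by linear_combination y 1 * a - x 1 * b - sin (om 1) * k⟩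

noncomputable def hx (a : ℝ) (q : W) (t : ℝ) : W :=
  !₂[cos (a * t), sin (a * t), t * (q 2 + 1) - 1, t * q 3]

lemma hx_sm (a : ℝ) (q : W) : ContDiff ℝ ∞ (hx a q) := by
  rw [contDiff_euclidean]
  intro j
  fin_cases j <;> simp [hx] <;> fun_prop

lemma hx_d1 (a : ℝ) (q : W) :
    deriv (hx a q) = fun t => !₂[-sin (a * t) * a, cos (a * t) * a, q 2 + 1, q 3] := by
  ext1 t
  refine HasDerivAt.deriv (hd' fun j => ?_)
  fin_cases j
  exacts [(hasDerivAt_const_mul a).cos, (hasDerivAt_const_mul a).sin,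
    (hasDerivAt_mul_const _).sub_const 1, hasDerivAt_mul_const _]

lemma hx_d2 (a : ℝ) (q : W) (t : ℝ) :
    deriv (deriv (hx a q)) t = !₂[-(cos (a * t) * a) * a, -sin (a * t) * a * a, 0, 0] := by
  rw [hx_d1]
  refine HasDerivAt.deriv (hd' fun j => ?_)
  fin_cases j
  exacts [(hasDerivAt_const_mul a).sin.neg.mul_const a, (hasDerivAt_const_mul a).cos.mul_const a,
    hasDerivAt_const _ _, hasDerivAt_const _ _]

lemma hx_neg (a : ℝ) {q : W} (h : q 2 < 0) : ∀ t ∈ Icc (0 : ℝ) 1, hx a q t 2 < 0 := fun t ht => by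
  change t * (q 2 + 1) - 1 < 0
  rcases ht.2.eq_or_lt with e | e
  · rw [e]; linarith
  · nlinarith [ht.1]

lemma hx_normal (a : ℝ) {q : W} (h : q 2 < 0) : NormalGeo N {bp} (hx a q) := by
  have h0 : hx a q 0 = bp := by ext j; fin_cases j <;> simp [hx, bp]
  refine ⟨geo_iff.2 ⟨hx_sm a q, fun t ht => ⟨?_, -a ^ 2 / 2, ?_⟩⟩, h0, ?_⟩
  · change cos (a * t) ^ 2 + sin (a * t) ^ 2 + ph (hx a q t 2) = 1
    simp [ph_neg (hx_neg a h t ht).le]
  · rw [hx_d2, nv, dph_neg (hx_neg a h t ht)]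
    ext j
    fin_cases j <;> simp [hx] <;> ring
  · rintro v ⟨c, -, h1, h2⟩
    rw [h2.unique ((hasDerivAt_const (0 : ℝ) bp).congr_of_eventuallyEq h1), inner_zero_right]

lemma hx_idx {a : ℝ} {q : W} (h : q 2 < 0) (h0 : cos a = q 0) (h1 : sin a = q 1) (k : ℕ) :
    ¬ IdxGe N {bp} q (hx a q) (k + 1) := by
  refine idx_zero (hx_sm a q) (fun Γ s1 s2 s3 s4 => ?_) k
  have sm : ∀ r, ContDiff ℝ ∞ (Γ r) := fun r => s1.comp (f := fun t : ℝ => (r, t)) (by fun_prop)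
  have c1 := MP_106964_gt.par_deriv s1
  have c0 := s1.continuous
  have cw : Continuous fun r => ∫ t in (0 : ℝ)..1,
      (Γ r t 0 * deriv (Γ r) t 1 - Γ r t 1 * deriv (Γ r) t 0) :=
    intervalIntegral.continuous_parametric_intervalIntegral_of_continuous'
      (f := fun r t => Γ r t 0 * deriv (Γ r) t 1 - Γ r t 1 * deriv (Γ r) t 0)
      (by unfold Function.uncurry; fun_prop) 0 1
  have w0 : ∫ t in (0 : ℝ)..1, (Γ 0 t 0 * deriv (Γ 0) t 1 - Γ 0 t 1 * deriv (Γ 0) t 0) = a := by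
    rw [intervalIntegral.integral_congr (g := fun _ => a) fun t ht => ?_]
    · simp
    rw [uIcc_of_le zero_le_one] at ht
    simp only [deriv_eqOn ((sm 0).differentiable (by simp)) ((hx_sm a q).differentiable (by simp))
      s2 ht, s2 ht, hx_d1]
    simp [hx]
    linear_combination a * cos_sq_add_sin_sq (a * t)
  have e1 : ∀ᶠ r in 𝓝 (0 : ℝ), ∀ t ∈ Icc (0 : ℝ) 1, Γ r t 2 < 0 :=
    isCompact_Icc.eventually_forall_of_forall_eventually fun t ht =>
      (show Continuous fun z : ℝ × ℝ => Γ z.1 z.2 2 by fun_prop).continuousAt.eventually_lt_const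
        (by simpa [s2 ht] using hx_neg a h t ht)
  have e2 := Metric.tendsto_nhds.1 (w0 ▸ cw.tendsto 0) (2 * π) (by positivity)
  filter_upwards [e1, e2] with r r1 r2
  have cd : Continuous (deriv (Γ r)) := (sm r).continuous_deriv (by simp)
  have cg := (sm r).continuous
  have b : Γ r 0 = bp := (s4 r).1
  have ci : ∀ t ∈ Icc (0 : ℝ) 1, Γ r t 0 ^ 2 + Γ r t 1 ^ 2 = 1 := fun t ht => by
    have : Γ r t 0 ^ 2 + Γ r t 1 ^ 2 + ph (Γ r t 2) = 1 := s3 r t ht
    rwa [ph_neg (r1 t ht).le, add_zero] at this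
  have w := wind (sm1 (sm r) · 0) (sm1 (sm r) · 1) (by fun_prop) (by fun_prop) ci
    (by simp [b, bp]) (by simp [b, bp])
  simp only [(s4 r).2, ← h0, ← h1] at w
  obtain ⟨n, hn⟩ := MP_106964_gt.ceq w.1 w.2
  rw [Real.dist_eq, hn, abs_mul, abs_of_pos two_pi_pos, mul_lt_iff_lt_one_right two_pi_pos,
    ← Int.cast_abs, ← Int.cast_one, Int.cast_lt, Int.abs_lt_one_iff] at r2
  have c : Continuous fun t => Γ r t 0 * deriv (Γ r) t 1 - Γ r t 1 * deriv (Γ r) t 0 := by fun_prop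
  have := calib (sm r) (fun t => (((((c.integral_hasStrictDerivAt 0 t).hasDerivAt.const_mul
    (2 * a)).add ((sm1 (sm r) t 2).const_mul (2 * (q 2 + 1)))).add
    ((sm1 (sm r) t 3).const_mul (2 * q 3))).sub
    (hasDerivAt_mul_const (a ^ 2 + (q 2 + 1) ^ 2 + q 3 ^ 2)))) fun t ht => by
      have u1 : deriv (Γ r) t 0 ^ 2 + deriv (Γ r) t 1 ^ 2 =
          (Γ r t 0 * deriv (Γ r) t 1 - Γ r t 1 * deriv (Γ r) t 0) ^ 2 +
          (Γ r t 0 * deriv (Γ r) t 0 + Γ r t 1 * deriv (Γ r) t 1) ^ 2 := by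
        linear_combination -(deriv (Γ r) t 0 ^ 2 + deriv (Γ r) t 1 ^ 2) * ci t ht
      rw [nrm, u1]
      nlinarith [sq_nonneg (Γ r t 0 * deriv (Γ r) t 0 + Γ r t 1 * deriv (Γ r) t 1),
        sq_nonneg (Γ r t 0 * deriv (Γ r) t 1 - Γ r t 1 * deriv (Γ r) t 0 - a),
        sq_nonneg (deriv (Γ r) t 2 - (q 2 + 1)), sq_nonneg (deriv (Γ r) t 3 - q 3)]
  have en : energy (hx a q) = a ^ 2 + (q 2 + 1) ^ 2 + q 3 ^ 2 := by
    have : ∀ t, ‖deriv (hx a q) t‖ ^ 2 = a ^ 2 + (q 2 + 1) ^ 2 + q 3 ^ 2 := fun t => by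
      rw [nrm, hx_d1]; simp; linear_combination a ^ 2 * cos_sq_add_sin_sq (a * t)
    simp [energy, this]
  rw [r2, Int.cast_zero, mul_zero, sub_eq_zero] at hn
  simp [hn, b, bp, (s4 r).2] at this
  rw [en]; linarith

theorem not_taut : ¬ Taut N {bp} := by
  intro h
  obtain ⟨q, q1, q2, q3⟩ := nonfocal
  have hq : q ∈ N := by
    change q 0 ^ 2 + q 1 ^ 2 + ph (q 2) = 1
    rw [ph_neg q2.le, add_zero, q1]
  have h1 := h q hq q3 0
  rw [betti_eq, MP_106964_gt.betti0] at h1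
  have h2 : Subsingleton (ZerothHomotopy (PathSp N {bp} q)) := ⟨by
    rintro ⟨a⟩ ⟨b⟩
    exact Quotient.sound (conn a.2 b.2).joined_subtype⟩
  have h3 := Cardinal.le_one_iff_subsingleton.1 (h1.le.trans
    (Cardinal.le_one_iff_subsingleton.2 h2))
  obtain ⟨a, a1, a2⟩ := MP_106964_gt.ang q1
  have m : ∀ a, cos a = q 0 → sin a = q 1 → (fun t : Icc (0 : ℝ) 1 => hx a q t) ∈ Crit N {bp} q 0 := by
    intro a a1 a2
    have e : hx a q 1 = q := by ext j; fin_cases j <;> simp [hx, a1, a2]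
    exact ⟨_, ⟨hx_normal a q2, e, idx_ge0 (hx_normal a q2) e, hx_idx q2 a1 a2 0⟩, rfl⟩
  have h4 := h3.elim ⟨_, m a a1 a2⟩ ⟨_, m (a + 2 * π) (by simp [a1]) (by simp [a2])⟩
  have h5 := congrArg (fun γ : Crit N {bp} q 0 => γ.1 ⟨1 / 2, by norm_num, by norm_num⟩) h4
  have e0 : cos (a * (1 / 2)) = cos ((a + 2 * π) * (1 / 2)) := congrArg (· 0) h5
  have e1 : sin (a * (1 / 2)) = sin ((a + 2 * π) * (1 / 2)) := congrArg (· 1) h5
  rw [show (a + 2 * π) * (1 / 2) = a * (1 / 2) + π by ring] at e0 e1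
  rw [cos_add_pi] at e0
  rw [sin_add_pi] at e1
  nlinarith [cos_sq_add_sin_sq (a * (1 / 2))]

theorem main : ContDiff ℝ ∞ F ∧ (∀ x ∈ N, fderiv ℝ F x ≠ 0) ∧ Taut N M ∧ ∃ p ∈ N,
    (∃ γ₀, NormalGeo N M γ₀ ∧ γ₀ 1 = p ∧
      ∀ γ, NormalGeo N M γ → γ 1 = p → EqOn γ γ₀ (Icc 0 1)) ∧ p ∉ M ∧
    ¬ Taut N {x | ∃ γ, NormalGeo N M γ ∧ γ 1 = p ∧ γ 0 = x} := by
  have hp : (!₂[1, 0, -1, 1] : W) ∈ N := by
    change _ + ph _ = 1
    simp [ph_neg]
  refine ⟨F_sm, fun _ => F_reg, taut, _, hp, ⟨_, ln_normal hp, ln_one _, fun _ => ln_uniq⟩,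
    fun h => by simpa using h.2, ?_⟩
  have e : ln !₂[1, 0, -1, 1] 0 = bp := by ext j; fin_cases j <;> simp [ln, bp]
  convert not_taut
  refine eq_singleton_iff_unique_mem.2 ⟨⟨_, ln_normal hp, ln_one _, e⟩, ?_⟩
  rintro _ ⟨γ, a, b, rfl⟩
  exact (ln_uniq a b (left_mem_Icc.2 zero_le_one)).trans e

end Pool.Agent.H.MP_5c6b81_gt
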